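import Mathlib
import Pool.Agent.H.MP_52e7c8_nt.A

namespace Pool.Agent.Results.MP_52e7c8_nt.NoDarboux

open Pool.Agent.Lib.helper11.Cover Pool.Agent.H.MP_52e7c8_nt

def UD (H : Set ℤ) (μ : Set ℤ → ℝ) : Prop :=
  μ H = 1 ∧ (∀ X ⊆ H, ∀ Y ⊆ H, μ (X ∪ Y) ≤ μ X + μ Y) ∧
    (∀ X ⊆ H, ∀ h k : ℕ, 0 < h → 0 < k → μ ((fun x => k * x + h) '' X) = μ X / k) ∧
    (∀ X ⊆ H, μ X ≤ 1) ∧ ∀ Y ⊆ H, ∀ X ⊆ Y, μ X ≤ μ Y

def dom (H : Set ℤ) (μ : Set ℤ → ℝ) : Set (Set ℤ) := {X | X ⊆ H ∧ μ X + μ (H \ X) = 1}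

theorem result (H : Set ℤ) (hH : H = Set.univ ∨ H = Set.Ici 0 ∨ H = Set.Ici 1) :
    ∃ μ : Set ℤ → ℝ, UD H μ ∧ ∃ X ∈ dom H μ, ∃ a ∈ Set.Icc 0 (μ X),
      ¬ ∃ Y ∈ dom H μ, Y ⊆ X ∧ μ Y = a := by
  classical
  have hH1 : ∀ n, 1 ≤ n → n ∈ H := by
    rcases hH with rfl | rfl | rfl <;> intro n hn <;> simp <;> omega
  obtain ⟨χ, hχ⟩ := exists_gen
  have S := sys χ
  have hw : ∀ b, w ((1, 0), b) = 1 / 2 := fun b => by simp [w]
  have h1 : mu (G χ) w H = 1 := by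
    refine le_antisymm (mu_le_one S _) (le_mu S fun F hF => ?_)
    by_contra hc
    have a := fun b => indep hχ b F (le_trans (fun n hn => hH1 n hn.1) hF) (not_le.1 hc)
    refine hc (le_trans (le_of_eq ?_) (Finset.sum_le_sum_of_subset_of_nonneg
      (s := {((1, 0), true), ((1, 0), false)}) ?_ fun i _ _ => S.nn i))
    · rw [two_w]; simp
    · intro i hi
      simp only [Finset.mem_insert, Finset.mem_singleton] at hi
      rcases hi with rfl | rfl <;> exact a _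
  have h2 : mu (G χ) w (H ∩ {n | χ n = true}) ≤ 1 / 2 :=
    hw true ▸ mu_le_gen S ((1, 0), true) fun n hn => ⟨n, hn.2, by simp⟩
  have h3 : mu (G χ) w (H \ (H ∩ {n | χ n = true})) ≤ 1 / 2 :=
    hw false ▸ mu_le_gen S ((1, 0), false) fun n hn => ⟨n, by simpa [hn.1] using hn.2, by simp⟩
  have h4 := mu_union S (H ∩ {n | χ n = true}) (H \ (H ∩ {n | χ n = true}))
  rw [Set.union_sdiff_cancel Set.inter_subset_left, h1] at h4
  refine ⟨mu (G χ) w, ⟨h1, fun X _ Y _ => mu_union S X Y, fun X _ h k _ hk => aff χ k hk h X,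
    fun X _ => mu_le_one S X, fun Y _ X h => mu_mono S h⟩, H ∩ {n | χ n = true},
    ⟨Set.inter_subset_left, by linarith⟩, 1 / 4, ⟨by norm_num, by linarith⟩, ?_⟩
  rintro ⟨Y, ⟨-, hY⟩, hYX, ha⟩
  obtain ⟨F, hF, hF'⟩ := exists_cover S (Z := Y) (c := 3 / 8) (by linarith)
  obtain ⟨E, hE, hE'⟩ := exists_cover S (Z := H \ Y) (c := 7 / 8) (by linarith)
  have h5 := indep hχ false E (fun n hn => hE
    ⟨hH1 n hn.1, fun h => by have := (hYX h).2; simp [hn.2] at this⟩) (by linarith)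
  have h6 := Finset.add_sum_erase E w h5
  rw [hw] at h6
  have h7 := indep hχ true (F ∪ E.erase ((1, 0), false)) (fun n hn => by
    by_cases h : n ∈ Y
    · obtain ⟨i, hi, h'⟩ := Set.mem_iUnion₂.1 (hF h)
      exact Set.mem_iUnion₂.2 ⟨i, Finset.mem_union_left _ hi, h'⟩
    · obtain ⟨i, hi, h'⟩ := Set.mem_iUnion₂.1 (hE ⟨hH1 n hn.1, h⟩)
      refine Set.mem_iUnion₂.2 ⟨i, Finset.mem_union_right _ (Finset.mem_erase.2 ⟨?_, hi⟩), h'⟩
      rintro rfl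
      obtain ⟨x, hx, e⟩ := h'
      obtain rfl : x = n := by simpa using e
      simp [hn.2] at hx) (by linarith [sum_union_le S F (E.erase ((1, 0), false))])
  rcases Finset.mem_union.1 h7 with h | h <;>
    have := Finset.single_le_sum (fun i _ => S.nn i) h <;> rw [hw] at this <;> linarith

end Pool.Agent.Results.MP_52e7c8_nt.NoDarboux
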